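import Pool.Agent.Helper1.FF2.Goals2
import Pool.Agent.Helper22.FF.StmtAlg
import Pool.Agent.Helper90.FF.StmtPar
import Pool.Agent.Helper90.FF.StmtBond
import Pool.Agent.Helper89.FF.StmtNoCut
import Pool.Agent.Helper52.FF.StmtEnumFacts

/-!
# MP_7cb822_co, packet 930: existence and disjointness of the sectors
-/

namespace Pool.Agent.Helper43.FF

open Finset
open Pool.Agent.Helper34.FF Pool.Agent.Helper1.FF2
open scoped symmDiff Classical

theorem mem_bdry_iff {V F : Type} [Fintype V] [Fintype F] (T : Tri V F) {e : Sym2 V} (he : e ∈ T.G.edgeSet) {f₁ f₂ : F} (hne : f₁ ≠ f₂)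
    (h : ∀ f, T.on e f ↔ f = f₁ ∨ f = f₂) (S : Finset F) :
    e ∈ T.bdry S ↔ ¬ (f₁ ∈ S ↔ f₂ ∈ S) := by
  rw [Pool.Agent.Helper22.FF.mem_bdry, Pool.Agent.Helper22.FF.card_filter_on T e f₁ f₂ hne h]
  by_cases h1 : f₁ ∈ S <;> by_cases h2 : f₂ ∈ S <;> simp [h1, h2, he]

theorem even_card_symmDiff {α : Type} [DecidableEq α] (A B : Finset α) :
    Even (A ∆ B).card ↔ (Even A.card ↔ Even B.card) := by
  have h := Pool.Agent.Helper90.FF.card_symmDiff_add A B
  rw [← Nat.even_add, ← h, Nat.even_add]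
  simp

theorem filter_symmDiff' {α : Type} [DecidableEq α] (A B : Finset α) (p : α → Prop)
    [DecidablePred p] :
    (A ∆ B).filter p = A.filter p ∆ B.filter p := by
  ext x
  simp only [mem_filter, mem_symmDiff]
  tauto

theorem tE_adj {V : Type} {H : SimpleGraph V} {u : V} {P : V → ℕ → V} (hP : IsTree H u P) {x : V}
    (hx : H.Reachable u x) {e : Sym2 V} (he : e ∈ tE H u P x) : e ∈ H.edgeSet := by
  unfold tE wE at he
  rw [mem_image] at he
  obtain ⟨i, hi, rfl⟩ := he
  exact (hP.walk x hx).2.2 i (mem_range.1 hi)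

theorem pf_StmtSec (hLca : StmtLca) (hAc : StmtAcyc) : StmtSec := by
  intro V F _ _ T hT E l c Ω u P hE hΩ hinn hP hreach
  have hAlg : StmtAlg := Pool.Agent.Helper22.FF.pf_StmtAlg
  have hNC : StmtNoCut := Pool.Agent.Helper89.FF.pf_StmtNoCut
  have hBd : StmtBond := Pool.Agent.Helper90.FF.pf_StmtBond hAlg hNC
  have hEF : StmtEnumFacts := Helper52FF.pf_StmtEnumFacts hAlg hBd
  obtain ⟨aSym, aCompl, aEven, -, -, aDis, -⟩ := hAlg V F T
  obtain ⟨hBond, hlen, -⟩ := hEF V F T hT E l c hE
  have hDC : T.DC E := hBond.1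
  have hEne : E.Nonempty := hDC.1
  -- the tree edges
  let tree : Sym2 V → Prop := fun e => ∃ x, Ω.Reachable u x ∧ e ∈ tE Ω u P x
  have htreeΩ : ∀ e, tree e → e ∈ Ω.edgeSet := fun e ⟨x, hx, he⟩ => tE_adj hP hx he
  have htreeG : ∀ e, tree e → e ∈ T.G.edgeSet := fun e he =>
    SimpleGraph.edgeSet_mono hΩ (htreeΩ e he)
  have hAc' : ∀ Z : Finset (Sym2 V), EvenSet Z → (∀ e ∈ Z, tree e) → Z = ∅ :=
    fun Z h1 h2 => hAc V Ω u P hP Z h1 h2
  -- the even sets
  obtain ⟨z, hz⟩ : ∃ z : ℤ → Finset (Sym2 V), ∀ i, z i =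
      {s(c i, c (i + 1))} ∆ (tE Ω u P (c i) ∆ tE Ω u P (c (i + 1))) := ⟨_, fun _ => rfl⟩
  have hzt : ∀ i e, e ∈ z i → e = s(c i, c (i + 1)) ∨ tree e := by
    intro i e he
    rw [hz, mem_symmDiff, mem_symmDiff] at he
    rcases he with ⟨h, -⟩ | ⟨⟨h, -⟩ | ⟨h, -⟩, -⟩
    · exact Or.inl (mem_singleton.1 h)
    · exact Or.inr ⟨_, hreach i, h⟩
    · exact Or.inr ⟨_, hreach (i + 1), h⟩
  have hcb : ∀ i, s(c i, c (i + 1)) ∈ T.bdry E := fun i => (hE.bd _).2 ⟨i, rfl⟩
  have hcG : ∀ i, s(c i, c (i + 1)) ∈ T.G.edgeSet := fun i => hE.adj i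
  have hzG : ∀ i, ∀ e ∈ z i, e ∈ T.G.edgeSet := by
    intro i e he
    rcases hzt i e he with rfl | h
    · exact hcG i
    · exact htreeG e h
  have hcne : ∀ i, c i ≠ c (i + 1) := fun i => (hE.adj i).ne
  have hzE : ∀ i, EvenSet (z i) := by
    intro i v
    obtain ⟨a, -, -, -, -, -, hodd⟩ := hLca V Ω u P hP (c i) (c (i + 1)) (hreach i) (hreach (i + 1))
    rw [hz, filter_symmDiff', even_card_symmDiff]
    have h1 := hodd v
    rw [← Nat.not_even_iff_odd] at h1
    have h2 : Even (({s(c i, c (i + 1))} : Finset (Sym2 V)).filter fun e => v ∈ e).card ↔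
        ¬ (v = c i ∨ v = c (i + 1)) := by
      rw [filter_singleton]
      by_cases h : v ∈ s(c i, c (i + 1))
      · rw [if_pos h, card_singleton]
        rw [Sym2.mem_iff] at h
        simp [h]
      · rw [if_neg h, card_empty]
        rw [Sym2.mem_iff] at h
        simp [h]
    have h3 := hcne i
    tauto
  -- the sectors
  have hex : ∀ i, ∃ X : Finset F, T.bdry X = z i ∧ Disjoint X E := by
    intro i
    obtain ⟨X, hX⟩ := hT.span (z i) (hzG i) (hzE i)
    have hno : ∀ e ∈ T.bdry X, e ∉ T.inn E := by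
      intro e he he'
      rw [hX] at he
      rcases hzt i e he with rfl | h
      · exact (disjoint_left.1 (aDis E)) (hcb i) he'
      · exact hinn e he' (htreeΩ e h)
    rcases hNC V F T E X hDC hno with h | h
    · refine ⟨Xᶜ, by rw [aCompl, hX], ?_⟩
      rw [disjoint_left]
      intro f hf hf'
      exact (mem_compl.1 hf) (h hf')
    · exact ⟨X, hX, h.symm⟩
  have huniq : ∀ X X' : Finset F, Disjoint X E → Disjoint X' E → T.bdry X = T.bdry X' →
      X = X' := by
    intro X X' h1 h2 h3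
    have h4 : T.bdry (X ∆ X') = ∅ := by
      rw [aSym, h3, symmDiff_self]
      rfl
    rcases hT.dual _ h4 with h5 | h5
    · exact symmDiff_eq_bot.1 h5
    · exfalso
      obtain ⟨f, hf⟩ := hEne
      have h6 : f ∈ X ∆ X' := by rw [h5]; exact mem_univ f
      rw [mem_symmDiff] at h6
      rcases h6 with h6 | h6
      · exact (disjoint_left.1 h1) h6.1 hf
      · exact (disjoint_left.1 h2) h6.1 hf
  choose U hU hUE using hex
  -- the key: every face outside `E` lies in exactly one class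
  have key : ∀ g, g ∉ E → ∃ i, ∀ j, g ∈ U j ↔ (l : ℤ) ∣ i - j := by
    intro g hg
    obtain ⟨R, hR⟩ : ∃ R : Finset F, ∀ f, f ∈ R ↔ (f ∉ E ∧ ∀ i, f ∈ U i ↔ g ∈ U i) :=
      ⟨univ.filter fun f => f ∉ E ∧ ∀ i, f ∈ U i ↔ g ∈ U i, fun f => by simp⟩
    have hbR : ∀ e ∈ T.bdry R, e ∈ T.bdry E ∨ tree e := by
      intro e he
      by_contra hcon
      push Not at hcon
      have heG : e ∈ T.G.edgeSet := by
        rw [Pool.Agent.Helper22.FF.mem_bdry] at he
        exact he.1
      obtain ⟨f₁, f₂, hne, hf⟩ := Pool.Agent.Helper22.FF.two_faces T e heG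
      rw [mem_bdry_iff T heG hne hf] at he
      apply he
      have h1 := hcon.1
      rw [mem_bdry_iff T heG hne hf, not_not] at h1
      have h2 : ∀ i, f₁ ∈ U i ↔ f₂ ∈ U i := by
        intro i
        have h3 : e ∉ T.bdry (U i) := by
          rw [hU]
          intro h4
          rcases hzt i e h4 with rfl | h5
          · exact hcon.1 (hcb i)
          · exact hcon.2 h5
        rwa [mem_bdry_iff T heG hne hf, not_not] at h3
      rw [hR, hR]
      constructor
      · rintro ⟨h3, h4⟩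
        exact ⟨fun h5 => h3 (h1.2 h5), fun i => by rw [← h2 i]; exact h4 i⟩
      · rintro ⟨h3, h4⟩
        exact ⟨fun h5 => h3 (h1.1 h5), fun i => by rw [h2 i]; exact h4 i⟩
    have hgR : g ∈ R := (hR g).2 ⟨hg, fun i => Iff.rfl⟩
    have hbne : T.bdry R ≠ ∅ := by
      intro h
      rcases hT.dual R h with h1 | h1
      · rw [h1] at hgR
        exact notMem_empty _ hgR
      · obtain ⟨f, hf⟩ := hEne
        have h2 : f ∈ R := by rw [h1]; exact mem_univ f
        exact ((hR f).1 h2).1 hf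
    obtain ⟨e, he, het⟩ : ∃ e ∈ T.bdry R, ¬ tree e := by
      by_contra hcon
      push Not at hcon
      exact hbne (hAc' _ (aEven R) hcon)
    have heE : e ∈ T.bdry E := (hbR e he).resolve_right het
    obtain ⟨i, rfl⟩ := (hE.bd e).1 heE
    have heG := hcG i
    refine ⟨i, fun j => ?_⟩
    have hej : s(c i, c (i + 1)) ∈ T.bdry (U j) ↔ (l : ℤ) ∣ i - j := by
      rw [hU, ← Helper52FF.E_eq_iff hE i j]
      constructor
      · intro h
        exact (hzt j _ h).resolve_right het
      · intro h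
        rw [hz, mem_symmDiff]
        left
        refine ⟨mem_singleton.2 h, fun h2 => het ?_⟩
        rw [mem_symmDiff] at h2
        rcases h2 with ⟨h2, -⟩ | ⟨h2, -⟩
        · exact ⟨_, hreach j, h2⟩
        · exact ⟨_, hreach (j + 1), h2⟩
    rw [← hej]
    obtain ⟨f₁, f₂, hne, hf⟩ := Pool.Agent.Helper22.FF.two_faces T _ heG
    rw [mem_bdry_iff T heG hne hf] at he heE
    rw [mem_bdry_iff T heG hne hf]
    have d1 : f₁ ∈ E → f₁ ∉ U j := fun h h' => (disjoint_left.1 (hUE j)) h' h
    have d2 : f₂ ∈ E → f₂ ∉ U j := fun h h' => (disjoint_left.1 (hUE j)) h' h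
    have r1 := hR f₁
    have r2 := hR f₂
    by_cases h1 : f₁ ∈ E
    · have h3 : f₁ ∉ R := fun h => (r1.1 h).1 h1
      have h4 : f₂ ∈ R := by
        by_contra h5
        exact he ⟨fun h => absurd h h3, fun h => absurd h h5⟩
      rw [← (r2.1 h4).2 j]
      exact ⟨fun h h' => d1 h1 (h'.2 h), fun h => by
        by_contra h'
        exact h ⟨fun h6 => absurd h6 (d1 h1), fun h6 => absurd h6 h'⟩⟩
    · have h2 : f₂ ∈ E := by
        by_contra h2
        exact heE ⟨fun h => absurd h h1, fun h => absurd h h2⟩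
      have h3 : f₂ ∉ R := fun h => (r2.1 h).1 h2
      have h4 : f₁ ∈ R := by
        by_contra h5
        exact he ⟨fun h => absurd h h5, fun h => absurd h h3⟩
      rw [← (r1.1 h4).2 j]
      exact ⟨fun h h' => d2 h2 (h'.1 h), fun h => by
        by_contra h'
        exact h ⟨fun h6 => absurd h6 h', fun h6 => absurd h6 (d2 h2)⟩⟩
  refine ⟨U, ?_, ?_, hUE, ?_, ?_, ?_⟩
  · intro i
    apply huniq _ _ (hUE _) (hUE _)
    rw [hU, hU, hz, hz, hE.per i, show i + (l : ℤ) + 1 = i + 1 + l by ring, hE.per (i + 1)]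
  · intro i
    rw [hU, hz]
  · intro i j hij
    rw [disjoint_left]
    intro g hgi hgj
    have hg : g ∉ E := fun h => (disjoint_left.1 (hUE i)) hgi h
    obtain ⟨k, hk⟩ := key g hg
    have h1 := (hk i).1 hgi
    have h2 := (hk j).1 hgj
    apply hij
    have := dvd_sub h2 h1
    rwa [show k - j - (k - i) = i - j by ring] at this
  · intro g hg
    obtain ⟨k, hk⟩ := key g hg
    exact ⟨k, (hk k).2 (by simp)⟩
  · intro i
    by_cases ht : tree s(c i, c (i + 1))
    · left
      have h1 : z i = ∅ := by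
        apply hAc' _ (hzE i)
        intro e he
        rcases hzt i e he with rfl | h
        · exact ht
        · exact h
      rcases hT.dual (U i) (by rw [hU, h1]) with h2 | h2
      · exact h2
      · exfalso
        obtain ⟨f, hf⟩ := hEne
        have h3 : f ∈ U i := by rw [h2]; exact mem_univ f
        exact (disjoint_left.1 (hUE i)) h3 hf
    · right
      have hmem : s(c i, c (i + 1)) ∈ z i := by
        rw [hz, mem_symmDiff]
        left
        refine ⟨mem_singleton.2 rfl, fun h2 => ht ?_⟩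
        rw [mem_symmDiff] at h2
        rcases h2 with ⟨h2, -⟩ | ⟨h2, -⟩
        · exact ⟨_, hreach i, h2⟩
        · exact ⟨_, hreach (i + 1), h2⟩
      apply (hBd V F T hT).1 (U i)
      · rw [hU]
        exact ⟨_, hmem⟩
      · rw [hU]
        intro B hB hBe
        by_cases hb : s(c i, c (i + 1)) ∈ B
        · right
          have h1 : z i ∆ B = ∅ := by
            apply hAc' _ ((Pool.Agent.Helper90.FF.pf_StmtPar V T.G).1 _ _ (hzE i) hBe)
            intro e he
            rw [mem_symmDiff] at he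
            rcases he with ⟨h2, h3⟩ | ⟨h2, h3⟩
            · rcases hzt i e h2 with rfl | h4
              · exact absurd hb h3
              · exact h4
            · exact absurd (hB h2) h3
          exact (symmDiff_eq_bot.1 h1).symm
        · left
          apply hAc' _ hBe
          intro e he
          rcases hzt i e (hB he) with rfl | h4
          · exact absurd he hb
          · exact h4

end Pool.Agent.Helper43.FF
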